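import Pool.Agent.W2helper44.CP.Stm

/-! Project CP (MP_28b04d_gt), piece EQV: smooth isotopy is an equivalence relation. -/

set_option autoImplicit false

open Set Filter Topology MeasureTheory
open scoped ContDiff

noncomputable section

namespace Pool.Agent.W2helper44.CP
namespace H85

variable {V : Type} [NormedAddCommGroup V] [NormedSpace ℝ V] {M : Set V}

/-- a smooth map which agrees on `M` with a diffeomorphism is one -/
theorem isDiffeo_congr {F F' : V → V} (h : IsDiffeo M F) (hF' : ContDiff ℝ ∞ F')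
    (he : ∀ x ∈ M, F' x = F x) : IsDiffeo M F' := by
  obtain ⟨-, h2, G, h3, h4, h5, h6⟩ := h
  refine ⟨hF', fun x hx => ?_, G, h3, h4, fun x hx => ?_, fun x hx => ?_⟩
  · rw [he x hx]; exact h2 hx
  · rw [he x hx]; exact h5 x hx
  · rw [he _ (h4 hx)]; exact h6 x hx

theorem isDiffeo_comp {F G : V → V} (hF : IsDiffeo M F) (hG : IsDiffeo M G) :
    IsDiffeo M (F ∘ G) := by
  obtain ⟨f1, f2, F', f3, f4, f5, f6⟩ := hF
  obtain ⟨g1, g2, G', g3, g4, g5, g6⟩ := hG
  refine ⟨f1.comp g1, f2.comp g2, G' ∘ F', g3.comp f3, g4.comp f4, fun x hx => ?_, fun x hx => ?_⟩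
  · show G' (F' (F (G x))) = x
    rw [f5 _ (g2 hx), g5 x hx]
  · show F (G (G' (F' x))) = x
    rw [g6 _ (f4 hx), f6 x hx]

theorem iso_refl {F : V → V} (hF : IsDiffeo M F) : Isotopic M F F :=
  ⟨fun p => F p.2, hF.1.comp contDiff_snd, fun _ => hF, fun _ _ => rfl, fun _ _ => rfl⟩

theorem iso_symm {F G : V → V} (h : Isotopic M F G) : Isotopic M G F := by
  obtain ⟨K, k1, k2, k3, k4⟩ := h
  refine ⟨fun p => K (1 - p.1, p.2), ?_, fun t => k2 (1 - t), fun x hx => ?_, fun x hx => ?_⟩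
  · exact k1.comp ((contDiff_const.sub contDiff_fst).prodMk contDiff_snd)
  · show K (1 - 0, x) = G x
    rw [sub_zero]; exact k4 x hx
  · show K (1 - 1, x) = F x
    rw [sub_self]; exact k3 x hx

theorem iso_comp {F G h : V → V} (hi : Isotopic M F G) (hh : IsDiffeo M h) :
    Isotopic M (F ∘ h) (G ∘ h) := by
  obtain ⟨K, k1, k2, k3, k4⟩ := hi
  refine ⟨fun p => K (p.1, h p.2), ?_, fun t => ?_, fun x hx => ?_, fun x hx => ?_⟩
  · exact k1.comp (contDiff_fst.prodMk (hh.1.comp contDiff_snd))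
  · exact isDiffeo_comp (k2 t) hh
  · exact k3 _ (hh.2.1 hx)
  · exact k4 _ (hh.2.1 hx)

theorem iso_congr {F G F' G' : V → V} (h : Isotopic M F G) (h1 : ∀ x ∈ M, F' x = F x)
    (h2 : ∀ x ∈ M, G' x = G x) : Isotopic M F' G' := by
  obtain ⟨K, k1, k2, k3, k4⟩ := h
  exact ⟨K, k1, k2, fun x hx => by rw [k3 x hx, h1 x hx], fun x hx => by rw [k4 x hx, h2 x hx]⟩

/-- the smooth gluing -/
def glue (K₁ K₂ : ℝ × V → V) (p : ℝ × V) : V :=
  (1 - Real.smoothTransition (3 * p.1 - 1)) • K₁ (Real.smoothTransition (3 * p.1), p.2) +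
    Real.smoothTransition (3 * p.1 - 1) • K₂ (Real.smoothTransition (3 * p.1 - 2), p.2)

theorem contDiff_glue {K₁ K₂ : ℝ × V → V} (h1 : ContDiff ℝ ∞ K₁) (h2 : ContDiff ℝ ∞ K₂) :
    ContDiff ℝ ∞ (glue K₁ K₂) := by
  have hσ : ContDiff ℝ ∞ Real.smoothTransition := Real.smoothTransition.contDiff
  have e1 : ContDiff ℝ ∞ fun p : ℝ × V => 3 * p.1 := contDiff_const.mul contDiff_fst
  have e2 : ContDiff ℝ ∞ fun p : ℝ × V => Real.smoothTransition (3 * p.1 - 1) :=
    hσ.comp (e1.sub contDiff_const)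
  have e3 : ContDiff ℝ ∞ fun p : ℝ × V => Real.smoothTransition (3 * p.1) := hσ.comp e1
  have e4 : ContDiff ℝ ∞ fun p : ℝ × V => Real.smoothTransition (3 * p.1 - 2) :=
    hσ.comp (e1.sub contDiff_const)
  exact ((contDiff_const.sub e2).smul (h1.comp (e3.prodMk contDiff_snd))).add
    (e2.smul (h2.comp (e4.prodMk contDiff_snd)))

theorem iso_trans {F G H : V → V} (hFG : Isotopic M F G) (hGH : Isotopic M G H) :
    Isotopic M F H := by
  obtain ⟨K₁, k1, k2, k3, k4⟩ := hFG
  obtain ⟨K₂, l1, l2, l3, l4⟩ := hGH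
  have hsm := contDiff_glue k1 l1
  -- values in the two halves
  have hlow : ∀ t : ℝ, t ≤ 2 / 3 → ∀ x ∈ M, glue K₁ K₂ (t, x) =
      K₁ (Real.smoothTransition (3 * t), x) := by
    intro t ht x hx
    unfold glue
    show (1 - Real.smoothTransition (3 * t - 1)) • K₁ (Real.smoothTransition (3 * t), x) +
      Real.smoothTransition (3 * t - 1) • K₂ (Real.smoothTransition (3 * t - 2), x) = _
    rw [Real.smoothTransition.zero_of_nonpos (x := 3 * t - 2) (by linarith), l3 x hx]
    rcases le_total t (1 / 3) with h | h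
    · rw [Real.smoothTransition.zero_of_nonpos (x := 3 * t - 1) (by linarith)]
      simp
    · rw [Real.smoothTransition.one_of_one_le (x := 3 * t) (by linarith), k4 x hx,
        ← add_smul, sub_add_cancel, one_smul]
  have hhigh : ∀ t : ℝ, 2 / 3 ≤ t → ∀ x ∈ M, glue K₁ K₂ (t, x) =
      K₂ (Real.smoothTransition (3 * t - 2), x) := by
    intro t ht x hx
    unfold glue
    show (1 - Real.smoothTransition (3 * t - 1)) • K₁ (Real.smoothTransition (3 * t), x) +
      Real.smoothTransition (3 * t - 1) • K₂ (Real.smoothTransition (3 * t - 2), x) = _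
    rw [Real.smoothTransition.one_of_one_le (x := 3 * t - 1) (by linarith), sub_self, zero_smul,
      zero_add, one_smul]
  refine ⟨glue K₁ K₂, hsm, fun t => ?_, fun x hx => ?_, fun x hx => ?_⟩
  · have hc : ContDiff ℝ ∞ fun x => glue K₁ K₂ (t, x) :=
      hsm.comp (contDiff_const.prodMk contDiff_id)
    rcases le_total t (2 / 3) with h | h
    · exact isDiffeo_congr (k2 _) hc (hlow t h)
    · exact isDiffeo_congr (l2 _) hc (hhigh t h)
  · rw [hlow 0 (by norm_num) x hx, Real.smoothTransition.zero_of_nonpos (by norm_num), k3 x hx]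
  · rw [hhigh 1 (by norm_num) x hx, Real.smoothTransition.one_of_one_le (by norm_num), l4 x hx]

end H85

theorem p_EQV : P_EQV := fun _ _ _ _ =>
  ⟨fun _ hF => H85.iso_refl hF, fun _ _ h => H85.iso_symm h, fun _ _ _ h1 h2 => H85.iso_trans h1 h2,
    fun _ _ _ h hh => H85.iso_comp h hh, fun _ _ h1 h2 => H85.isDiffeo_comp h1 h2,
    fun _ _ _ _ h h1 h2 => H85.iso_congr h h1 h2⟩

end Pool.Agent.W2helper44.CP
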